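import Pool.Agent.W223.RA.Stms

set_option autoImplicit false

namespace Pool.Agent.W693.RA.GAP

open Pool.Agent.W223.RA

theorem tGAP (hCEL : Pool.Agent.W223.RA.StmtCEL) (hGP1 : Pool.Agent.W223.RA.StmtGP1) :
    Pool.Agent.W223.RA.StmtGAP := by
  intro S ℓ hS hℓ
  obtain ⟨F, hF⟩ := hCEL S ℓ hS (by linarith)
  set A : Set (ℕ × ℕ) := {x : ℕ × ℕ | Trip x.1 x.2 ∧ Scale ℓ x.1 x.2 ∧ Light S x.1 x.2} with hA
  have hinj : Set.InjOn F A := by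
    rintro ⟨a₁, b₁⟩ h1 ⟨a₂, b₂⟩ h2 he
    obtain ⟨t1, s1, l1⟩ := h1
    obtain ⟨t2, s2, l2⟩ := h2
    have hn := hF a₁ b₁ a₂ b₂ t1 t2 s1 s2 he
    obtain ⟨e1, e2⟩ := hGP1 S ℓ hS hℓ a₁ b₁ a₂ b₂ t1 t2 s1 s2 l1 l2 hn
    rw [Prod.mk.injEq]
    exact ⟨e1, e2⟩
  refine ⟨Set.Finite.of_injOn (t := Set.univ) (fun _ _ => Set.mem_univ _) hinj Set.finite_univ, ?_⟩
  calc A.ncard ≤ (Set.univ : Set (Fin (2 ^ (105 * (S.card + 1))))).ncard :=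
        Set.ncard_le_ncard_of_injOn F (fun _ _ => Set.mem_univ _) hinj Set.finite_univ
    _ = 2 ^ (105 * (S.card + 1)) := by
        rw [Set.ncard_univ, Nat.card_eq_fintype_card, Fintype.card_fin]

end Pool.Agent.W693.RA.GAP
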